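import Pool.Agent.Lib.MP_4fbe7c_an.WH.Iface
import Pool.Agent.Lib.MP_4fbe7c_an.SD.SteadyB
import Pool.Agent.Lib.MP_4fbe7c_an.SD.Main

/-!
Project WH (MP_4fbe7c_an), module WMAIN (helper22).
-/

set_option autoImplicit false

open Set

namespace Pool.Agent.Lib.MP_4fbe7c_an.WH.H22

open Pool.Agent.Lib.MP_4fbe7c_an.SD Pool.Agent.Lib.MP_4fbe7c_an.FC
open Pool.Agent.Lib.MP_4fbe7c_an.WH

theorem wmain (_hpa : PaStatement) (hwfi : WFiStatement) (hwwt : WWtStatement)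
    (hfinc : FinCStatement) : WMainStatement := by
  intro L b a μ hL hb ha hμc hμ hnc
  obtain ⟨lam, ε₁, hlam, hε₁, hW⟩ := hwwt L b a hL hb ha
  obtain ⟨a₂, ha₂⟩ : ∃ a₂ : ℝ, a₂ = max a (50 * b * L ^ 2) := ⟨_, rfl⟩
  have haa : a ≤ a₂ := by rw [ha₂]; exact le_max_left _ _
  have hba : 50 * b * L ^ 2 ≤ a₂ := by rw [ha₂]; exact le_max_right _ _
  obtain ⟨ε₂, hε₂, hF⟩ := hwfi L b a a₂ lam μ hL hb ha haa hlam hμc hμ hnc
  refine ⟨min (min ε₁ ε₂) (min (b / 2) 1), by positivity, ?_⟩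
  intro ε hε hεle N d i₀ θ θ' θ'' had hlt hθ
  have h1 : ε ≤ ε₁ := hεle.trans ((min_le_left _ _).trans (min_le_left _ _))
  have h2 : ε ≤ ε₂ := hεle.trans ((min_le_left _ _).trans (min_le_right _ _))
  have h3 : ε ≤ b / 2 := hεle.trans ((min_le_right _ _).trans (min_le_left _ _))
  have h4 : ε ≤ 1 := hεle.trans ((min_le_right _ _).trans (min_le_right _ _))
  have hwk : Wk L b ε (fun x => b + ε * μ x) μ :=
    ⟨hb, hε, h3, h4, hμc, hμ, fun x _ => rfl⟩
  have hm : ContinuousOn (fun x => b + ε * μ x) (Icc 0 L) :=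
    continuousOn_const.add (continuousOn_const.mul hμc)
  have hnc' : ∃ x ∈ Icc 0 L, ∃ y ∈ Icc 0 L, (fun x => b + ε * μ x) x ≠ (fun x => b + ε * μ x) y := by
    obtain ⟨x, hx, y, hy, hxy⟩ := hnc
    refine ⟨x, hx, y, hy, fun h => hxy ?_⟩
    simp only [add_right_inj] at h
    exact mul_left_cancel₀ hε.ne' h
  have hbd : ∀ x ∈ Icc 0 L, |ε * μ x| ≤ b / 2 := by
    intro x hx
    rw [abs_mul, abs_of_pos hε]
    nlinarith [hμ x hx, abs_nonneg (μ x)]
  have hup : ∀ x ∈ Icc 0 L, b + ε * μ x ≤ 2 * b := fun x hx => by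
    have := (abs_le.1 (hbd x hx)).2
    linarith
  have hlo : ∀ x ∈ Icc 0 L, b / 2 ≤ b + ε * μ x := fun x hx => by
    have := (abs_le.1 (hbd x hx)).1
    linarith
  have habs : ∀ x ∈ Icc 0 L, |(fun x => b + ε * μ x) x| ≤ 2 * b := fun x hx => by
    rw [abs_le]
    exact ⟨by linarith [hlo x hx], hup x hx⟩
  have hd0 : 0 < d i₀ := lt_of_lt_of_le ha had
  have hdp : ∀ j, 0 < d j := by
    intro j
    by_cases hj : j = i₀
    · rw [hj]; exact hd0
    · exact hd0.trans (hlt j hj)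
  rcases le_total a₂ (d i₀) with hcase | hcase
  · -- large rates: weights for all species
    have hL2 : 0 ≤ b * L ^ 2 := by positivity
    have hw : ∀ j, ∃ φ φ' φ'' : ℝ → ℝ, j ≠ i₀ →
        Weight L (fun x => b + ε * μ x) θ (d j) φ φ' φ'' := by
      intro j
      by_cases hj : j = i₀
      · exact ⟨fun _ => 0, fun _ => 0, fun _ => 0, fun h => absurd hj h⟩
      · obtain ⟨φ, φ', φ'', h⟩ := weight_explicit hL hm hnc' (M := 2 * b) (m₀ := b / 2)
          hup hlo hd0 (by nlinarith) (by nlinarith) hθ (d j) (hlt j hj)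
        exact ⟨φ, φ', φ'', fun _ => h⟩
    choose φ φ' φ'' hφ using hw
    exact gas_of_weights hL hm hdp i₀ hθ hφ
  · classical
    obtain ⟨A, hA⟩ : ∃ A : Finset (Fin N),
        A = Finset.univ.filter fun j => j ≠ i₀ ∧ d j < lam * d i₀ := ⟨_, rfl⟩
    have hAm : ∀ j, j ∈ A ↔ j ≠ i₀ ∧ d j < lam * d i₀ := fun j => by rw [hA]; simp
    have hw : ∀ j, ∃ φ φ' φ'' : ℝ → ℝ, j ∈ A →
        Weight L (fun x => b + ε * μ x) θ (d j) φ φ' φ'' := by
      intro j
      by_cases hj : j ∈ A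
      · obtain ⟨g1, g2⟩ := (hAm j).1 hj
        obtain ⟨φ, φ', φ'', h⟩ := hW ε (d i₀) (d j) (fun x => b + ε * μ x) μ θ θ' θ'' h1 hwk hm
          hnc' had (hlt j g1) g2 hθ
        exact ⟨φ, φ', φ'', fun _ => h⟩
      · exact ⟨fun _ => 0, fun _ => 0, fun _ => 0, fun h => absurd h hj⟩
    choose φ φ' φ'' hφ using hw
    refine hfinc L (2 * b) (fun x => b + ε * μ x) θ θ' θ'' N d i₀ A φ φ' φ'' hL hm hnc'
      (by positivity) habs hd0 hlt ?_ hθ (fun j hj => hφ j hj) ?_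
    · intro h
      exact ((hAm i₀).1 h).1 rfl
    · intro u v w hs hp j hj hjA hpj
      refine hF ε (fun x => b + ε * μ x) N d u v w i₀ j hε h2
        ⟨hL, by positivity, hm, habs, hdp, hs⟩ hwk hp hpj had hcase ?_ ?_
      · intro k _
        by_cases hk : k = i₀
        · rw [hk]
        · exact (hlt k hk).le
      · by_contra hcon
        push Not at hcon
        exact hjA ((hAm j).2 ⟨hj, hcon⟩)

end Pool.Agent.Lib.MP_4fbe7c_an.WH.H22
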